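import Pool.Agent.Y224.AZ.Stm

set_option autoImplicit false

/-!
# Logarithms of direct sums and of conjugates
-/

namespace Pool.Agent.Y978.AZ

open Module Pool.Agent.Y224.AZ

noncomputable section

section aux

variable {K X Y : Type} [Field K] [AddCommGroup X] [Module K X] [AddCommGroup Y] [Module K Y]

/-- the coordinates of the value of an operator which is diagonal in a basis -/
lemma coord_diag {n : ℕ} (b : Basis (Fin n) K X) (c : Fin n → K) (f : End K X)
    (h : ∀ i, f (b i) = c i • b i) (u : X) (j : Fin n) :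
    b.coord j (f u) = c j * b.coord j u := by
  have e : (b.coord j) ∘ₗ f = c j • b.coord j := by
    refine b.ext fun i => ?_
    rw [LinearMap.comp_apply, h i, map_smul, LinearMap.smul_apply, Basis.coord_apply,
      Basis.repr_self, smul_eq_mul, smul_eq_mul]
    by_cases hij : i = j
    · rw [hij]
    · rw [Finsupp.single_eq_of_ne (Ne.symm hij), mul_zero, mul_zero]
  have := LinearMap.congr_fun e u
  rwa [LinearMap.comp_apply, LinearMap.smul_apply, smul_eq_mul] at this

lemma pow_diag (F : End K X) (v : X) (c : K) (h : F v = c • v) (a : K) (k : ℕ) :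
    ((F - a • (1 : End K X)) ^ k) v = (c - a) ^ k • v := by
  induction k with
  | zero => simp
  | succ k ih =>
    rw [pow_succ', Module.End.mul_apply, ih, map_smul, LinearMap.sub_apply, h,
      LinearMap.smul_apply, Module.End.one_apply, ← sub_smul, smul_smul, pow_succ]

lemma prod_pow (F : End K X) (G : End K Y) (a : K) (k : ℕ) (u : X) (y : Y) :
    ((F.prodMap G - a • (1 : End K (X × Y))) ^ k) (u, y) =
      (((F - a • (1 : End K X)) ^ k) u, ((G - a • (1 : End K Y)) ^ k) y) := by
  induction k with
  | zero => simp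
  | succ k ih =>
    rw [pow_succ', Module.End.mul_apply, ih, pow_succ', Module.End.mul_apply, pow_succ',
      Module.End.mul_apply]
    simp

lemma conj_pow' (P P' H : End K Y) (h : P' * P = 1) (h2 : P * P' = 1) (k : ℕ) :
    (P * H * P') ^ k = P * H ^ k * P' := by
  induction k with
  | zero => rw [pow_zero, pow_zero, mul_one, h2]
  | succ k ih =>
    rw [pow_succ, ih, pow_succ]
    calc P * H ^ k * P' * (P * H * P') = P * H ^ k * (P' * P) * H * P' := by noncomm_ring
      _ = _ := by rw [h, mul_one]; noncomm_ring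

end aux

theorem t_logp : S_LOGP := by
  constructor
  · intro K X Y _ _ _ _ _ _ _ _ _ n b a F x G z w hF hx hz a0 p hp
    obtain ⟨u, y⟩ := p
    obtain ⟨k, hk⟩ := Module.End.mem_maxGenEigenspace _ _ _ |>.1 hp
    rw [prod_pow] at hk
    have hk1 : ((F - (a0 : K) • (1 : End K X)) ^ k) u = 0 := congrArg Prod.fst hk
    have hk2 : ((G - (a0 : K) • (1 : End K Y)) ^ k) y = 0 := congrArg Prod.snd hk
    have h2 : z y = ((w (Additive.ofMul a0) : ℚ) : K) • y :=
      hz a0 y (Module.End.mem_maxGenEigenspace _ _ _ |>.2 ⟨k, hk2⟩)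
    have h1 : x u = ((w (Additive.ofMul a0) : ℚ) : K) • u := by
      refine b.ext_elem fun i => ?_
      have h3 := coord_diag b (fun i => ((w (Additive.ofMul (a i)) : ℚ) : K)) x hx u i
      have h4 := coord_diag b (fun i => ((a i : K) - a0) ^ k) ((F - (a0 : K) • (1 : End K X)) ^ k)
        (fun i => pow_diag F (b i) (a i) (hF i) a0 k) u i
      rw [hk1, map_zero] at h4
      rw [Basis.coord_apply, Basis.coord_apply] at h3
      rw [h3, map_smul, Finsupp.smul_apply, smul_eq_mul]
      rcases mul_eq_zero.1 h4.symm with h5 | h5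
      · have h6 : (a i : K) = a0 := sub_eq_zero.1 (eq_zero_of_pow_eq_zero h5)
        have h7 : a i = a0 := Units.ext h6
        rw [h7]
      · rw [Basis.coord_apply] at h5
        rw [h5, mul_zero, mul_zero]
    rw [LinearMap.prodMap_apply, h1, h2]
    rfl
  · intro K Y _ _ _ _ P P' G z w h1 h2 hz a0 y hy
    obtain ⟨k, hk⟩ := Module.End.mem_maxGenEigenspace _ _ _ |>.1 hy
    have e : P * G * P' - (a0 : K) • (1 : End K Y) = P * (G - (a0 : K) • (1 : End K Y)) * P' := by
      rw [mul_sub, sub_mul, mul_smul_comm, smul_mul_assoc, mul_one, h1]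
    rw [e, conj_pow' _ _ _ h2 h1] at hk
    have h3 : ((G - (a0 : K) • (1 : End K Y)) ^ k) (P' y) = 0 := by
      have h4 := congrArg P' hk
      rw [map_zero] at h4
      rw [← h4]
      change _ = (P' * (P * (G - (a0 : K) • (1 : End K Y)) ^ k * P')) y
      have h5 : P' * (P * (G - (a0 : K) • (1 : End K Y)) ^ k * P') =
          (P' * P) * (G - (a0 : K) • (1 : End K Y)) ^ k * P' := by noncomm_ring
      rw [h5, h2, one_mul]
      rfl
    have h4 := hz a0 (P' y) (Module.End.mem_maxGenEigenspace _ _ _ |>.2 ⟨k, h3⟩)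
    change P (z (P' y)) = _
    rw [h4, map_smul]
    congr 1
    change (P * P') y = y
    rw [h1]
    rfl

end

end Pool.Agent.Y978.AZ
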